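import Pool.Agent.Lib.MP_c5d73d_lc.F.Iter

/-!
Module ROAPI: the regular open algebra of a preorder.
-/

set_option autoImplicit false

universe u

open Cardinal Filter

namespace Pool.Agent.Lib.MP_c5d73d_lc.F.H62

open Pool.Agent.Lib.MP_100a6c_lc Pool.Agent.Lib.MP_c5d73d_lc.F

section

variable {P : Type u} [Preorder P]

theorem mem_hcompl (b : LowerSet P) (p : P) : p ∈ bᶜ ↔ ∀ q ≤ p, q ∉ b := by
  constructor
  · intro h q hq hqb
    have h1 : q ∈ b ⊓ bᶜ := ⟨hqb, bᶜ.lower hq h⟩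
    rw [inf_compl_self] at h1
    exact h1
  · intro h
    have h1 : LowerSet.Iic p ≤ bᶜ := by
      rw [le_compl_iff_disjoint_right, disjoint_iff_inf_le]
      intro q hq
      exact absurd hq.2 (h q (LowerSet.mem_Iic_iff.1 hq.1))
    exact h1 (LowerSet.mem_Iic_iff.2 le_rfl)

theorem mem_hcompl2 (b : LowerSet P) (p : P) : p ∈ bᶜᶜ ↔ ∀ q ≤ p, ∃ r ≤ q, r ∈ b := by
  rw [mem_hcompl]
  constructor
  · intro h q hq
    have h1 := h q hq
    rw [mem_hcompl] at h1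
    push Not at h1
    exact h1
  · intro h q hq h1
    rw [mem_hcompl] at h1
    obtain ⟨r, hr, hrb⟩ := h q hq
    exact h1 r hr hrb

theorem mem_reg (b : H1.RO P) (p : P) :
    p ∈ (b : LowerSet P) ↔ ∀ q ≤ p, ∃ r ≤ q, r ∈ (b : LowerSet P) := by
  rw [← mem_hcompl2]
  have h : (b : LowerSet P)ᶜᶜ = b := b.2
  rw [h]

theorem le_iff (b c : H1.RO P) : b ≤ c ↔ ∀ p, p ∈ (b : LowerSet P) → p ∈ (c : LowerSet P) :=
  Iff.rfl

theorem mem_pr_iff (p q : P) :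
    q ∈ ((pr p : H1.RO P) : LowerSet P) ↔ ∀ q' ≤ q, ∃ r ≤ q', r ≤ p :=
  mem_hcompl2 (LowerSet.Iic p) q

theorem self_mem_pr (p : P) : p ∈ ((pr p : H1.RO P) : LowerSet P) := by
  rw [mem_pr_iff]
  intro q hq
  exact ⟨q, le_rfl, hq⟩

theorem pr_le_iff (p : P) (b : H1.RO P) : pr p ≤ b ↔ p ∈ (b : LowerSet P) := by
  constructor
  · intro h
    exact h (self_mem_pr p)
  · intro h
    rw [le_iff]
    intro q hq
    rw [mem_pr_iff] at hq
    rw [mem_reg]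
    intro q' hq'
    obtain ⟨r, hr, hrp⟩ := hq q' hq'
    exact ⟨r, hr, (b : LowerSet P).lower hrp h⟩

theorem pr_mono {p q : P} (h : p ≤ q) : (pr p : H1.RO P) ≤ pr q :=
  (pr_le_iff p _).2 (((pr q : H1.RO P) : LowerSet P).lower h (self_mem_pr q))

/-- the element generated by a set of conditions -/
noncomputable def gen (A : Set P) : H1.RO P :=
  ⟨(⨆ n ∈ A, LowerSet.Iic n)ᶜᶜ, Heyting.isRegular_compl _⟩

theorem mem_gen (A : Set P) (p : P) :
    p ∈ ((gen A : H1.RO P) : LowerSet P) ↔ ∀ q ≤ p, ∃ r ≤ q, ∃ n ∈ A, r ≤ n := by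
  have h := mem_hcompl2 (⨆ n ∈ A, LowerSet.Iic n) p
  refine h.trans ?_
  simp only [LowerSet.mem_iSup_iff, LowerSet.mem_Iic_iff, exists_prop]

theorem iSup_pr_eq_gen (A : Set P) : (⨆ n ∈ A, pr n : H1.RO P) = gen A := by
  apply le_antisymm
  · refine iSup_le fun n => iSup_le fun hn => ?_
    rw [pr_le_iff, mem_gen]
    intro q hq
    exact ⟨q, le_rfl, n, hn, hq⟩
  · rw [le_iff]
    intro p hp
    rw [mem_gen] at hp
    rw [mem_reg]
    intro q hq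
    obtain ⟨r, hr, n, hn, hrn⟩ := hp q hq
    refine ⟨r, hr, ?_⟩
    rw [← pr_le_iff]
    exact (pr_mono hrn).trans (le_iSup₂_of_le n hn le_rfl)

theorem eq_iSup_pr (b : H1.RO P) : b = ⨆ p : {p : P // pr p ≤ b}, pr p.1 := by
  apply le_antisymm
  · rw [le_iff]
    intro p hp
    have h1 : pr p ≤ b := (pr_le_iff p b).2 hp
    rw [← pr_le_iff]
    exact le_iSup_of_le (⟨p, h1⟩ : {p : P // pr p ≤ b}) le_rfl
  · exact iSup_le fun p => p.2

theorem pr_ne_bot (p : P) : (pr p : H1.RO P) ≠ ⊥ := by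
  intro h
  have h1 := self_mem_pr p
  rw [h] at h1
  have h2 : ((⊥ : H1.RO P) : LowerSet P) = ⊥ := rfl
  rw [h2] at h1
  exact h1

/-- maximal antichains -/
theorem exists_max_antichain (D : Set P) : ∃ A : Set P, A ⊆ D ∧
    (∀ p ∈ A, ∀ q ∈ A, p ≠ q → ¬ ∃ r, r ≤ p ∧ r ≤ q) ∧
    ∀ q ∈ D, ∃ a ∈ A, ∃ r, r ≤ q ∧ r ≤ a := by
  obtain ⟨A, hA⟩ := zorn_subset
    {A : Set P | A ⊆ D ∧ ∀ p ∈ A, ∀ q ∈ A, p ≠ q → ¬ ∃ r, r ≤ p ∧ r ≤ q} (by
      intro c hc hchain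
      refine ⟨⋃₀ c, ⟨Set.sUnion_subset fun s hs => (hc hs).1, ?_⟩,
        fun s hs => Set.subset_sUnion_of_mem hs⟩
      rintro p ⟨s, hs, hps⟩ q ⟨t, ht, hqt⟩ hpq
      rcases hchain.total hs ht with h | h
      · exact (hc ht).2 p (h hps) q hqt hpq
      · exact (hc hs).2 p hps q (h hqt) hpq)
  refine ⟨A, hA.prop.1, hA.prop.2, ?_⟩
  intro q hq
  by_contra hcon
  push Not at hcon
  have h1 : insert q A ∈ {A : Set P | A ⊆ D ∧ ∀ p ∈ A, ∀ q ∈ A, p ≠ q → ¬ ∃ r, r ≤ p ∧ r ≤ q} := by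
    refine ⟨Set.insert_subset hq hA.prop.1, ?_⟩
    rintro x hx y hy hxy ⟨r, hrx, hry⟩
    rcases Set.mem_insert_iff.1 hx with hxq | hxA
    · rcases Set.mem_insert_iff.1 hy with hyq | hyA
      · exact hxy (hxq.trans hyq.symm)
      · exact hcon y hyA r (hxq ▸ hrx) hry
    · rcases Set.mem_insert_iff.1 hy with hyq | hyA
      · exact hcon x hxA r (hyq ▸ hry) hrx
      · exact hA.prop.2 x hxA y hyA hxy ⟨r, hrx, hry⟩
  have h2 : q ∈ A := hA.le_of_ge h1 (Set.subset_insert q A) (Set.mem_insert q A)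
  exact hcon q h2 q le_rfl le_rfl

theorem ccov (h : RCCC (fun p q : P => p ≤ q)) : CCov ℵ₀ (H1.RO P) := by
  intro s
  obtain ⟨A, hAD, hanti, hmax⟩ := exists_max_antichain
    {p : P | ∃ b ∈ s, p ∈ (b : LowerSet P)}
  have hA : #A ≤ ℵ₀ := by
    apply h A (fun a => a.1)
    intro a a' haa hex
    exact hanti a.1 a.2 a'.1 a'.2 (fun h => haa (Subtype.ext h)) hex
  choose b hb hmem using fun a : A => hAD a.2
  refine ⟨Set.range b, ?_, ?_, ?_⟩
  · rintro _ ⟨a, rfl⟩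
    exact hb a
  · exact mk_range_le.trans hA
  · apply le_antisymm
    · apply sSup_le_sSup
      rintro _ ⟨a, rfl⟩
      exact hb a
    · refine sSup_le fun c hc => ?_
      rw [le_iff]
      intro p hp
      rw [mem_reg]
      intro q hq
      obtain ⟨a, ha, r, hrq, hra⟩ := hmax q ⟨c, hc, (c : LowerSet P).lower hq hp⟩
      refine ⟨r, hrq, ?_⟩
      have h1 : r ∈ (b ⟨a, ha⟩ : LowerSet P) :=
        (b ⟨a, ha⟩ : LowerSet P).lower hra (hmem ⟨a, ha⟩)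
      have h2 : b ⟨a, ha⟩ ≤ sSup (Set.range b) := le_sSup ⟨_, rfl⟩
      exact h2 h1

theorem countable_gen (h : RCCC (fun p q : P => p ≤ q)) (b : H1.RO P) :
    ∃ A : Set P, A.Countable ∧ b = ⨆ n ∈ A, pr n := by
  obtain ⟨t, hts, htc, hsup⟩ := ccov h {c : H1.RO P | ∃ p : P, pr p ≤ b ∧ pr p = c}
  have hb : sSup {c : H1.RO P | ∃ p : P, pr p ≤ b ∧ pr p = c} = b := by
    apply le_antisymm
    · apply sSup_le
      rintro _ ⟨p, hp, rfl⟩
      exact hp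
    · conv_lhs => rw [eq_iSup_pr b]
      exact iSup_le fun p => le_sSup ⟨p.1, p.2, rfl⟩
  choose p hp hpc using fun c : t => hts c.2
  refine ⟨Set.range p, ?_, ?_⟩
  · have : Countable t := by
      rw [← mk_le_aleph0_iff]
      exact htc
    exact Set.countable_range p
  · rw [← hb, ← hsup]
    apply le_antisymm
    · refine sSup_le fun c hc => ?_
      refine le_iSup₂_of_le (p ⟨c, hc⟩) ⟨_, rfl⟩ ?_
      rw [hpc]
    · refine iSup₂_le ?_
      rintro _ ⟨c, rfl⟩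
      rw [hpc]
      exact le_sSup c.2

end

/-- ROAPI -/
theorem roapi : RoapiStatement.{u} := by
  intro P _
  refine ⟨pr_le_iff, ?_, eq_iSup_pr, pr_ne_bot, ?_, fun p q h => pr_mono h, ccov, countable_gen⟩
  · intro p A
    rw [pr_le_iff, iSup_pr_eq_gen, mem_gen]
  · intro b hb
    obtain ⟨p, hp⟩ := H1.exists_mem_of_ne_bot hb
    exact ⟨p, (pr_le_iff p b).2 hp⟩

end Pool.Agent.Lib.MP_c5d73d_lc.F.H62
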