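import Pool.Agent.Lib.MP_c5d73d_lc.F.H62.Roapi

/-!
Module ITFRC: forcing at stage `α` and Boolean values.
-/

set_option autoImplicit false

universe u

open Cardinal Filter

namespace Pool.Agent.Lib.MP_c5d73d_lc.F.H62

open Pool.Agent.Lib.MP_100a6c_lc Pool.Agent.Lib.MP_c5d73d_lc.F

theorem glue_lt {I : Type u} [LinearOrder I] [WellFoundedLT I] {z : I} {g : I → NameI I}
    (a : WithTop I) (p q : Cnd z g) (β : I) (h : (β : WithTop I) < a) :
    (glue a p q).1 β = p.1 β := by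
  simp only [glue, glueF, h, if_true]

theorem RS_to_RL {I : Type u} [LinearOrder I] [WellFoundedLT I] {z : I} {g : I → NameI I}
    (α : I) {p q : Cnd z g} (h : RS z g ⊤ p q) : RL z g α p q := by
  rw [← RS_coe]
  exact fun β _ => h β (WithTop.coe_lt_top β)

/-- ITFRC -/
theorem itfrc (hO : OrdiStatement.{u}) (hR : RoapiStatement.{u}) : ItfrcStatement.{u} := by
  intro I _ _ z g hz hr ht α A hA
  obtain ⟨-, -, hcongr, hglue, hsupp⟩ := hO I z g hz
  let _ := itPre z g hr ht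
  obtain ⟨-, hsup, -⟩ := hR (Cnd z g)
  have key : ∀ p : Cnd z g, Frc (RL z g α) A p ↔ pr p ≤ ⨆ n ∈ A, pr n := by
    intro p
    rw [hsup p A]
    constructor
    · intro h q hq
      have h1 : RL z g α q p := RS_to_RL α hq
      obtain ⟨q', hq', n, hn, hqn⟩ := h q h1
      have ht1 : RS z g ⊤ (glue (α : WithTop I) q' q) q :=
        hglue ⊤ α q' q le_top (by rw [RS_coe]; exact hq')
      have ht2 : RS z g α (glue (α : WithTop I) q' q) n :=
        hcongr α q' (glue (α : WithTop I) q' q) n n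
          (fun β hβ => ⟨(glue_lt _ _ _ β hβ).symm, rfl⟩) (by rw [RS_coe]; exact hqn)
      exact ⟨glue (α : WithTop I) q' q, ht1, n, hn,
        hsupp ⊤ α _ n le_top (fun β hβ => hA n hn β (WithTop.coe_le_coe.1 hβ)) ht2⟩
    · intro h p' hp'
      have ht0 : RS z g ⊤ (glue (α : WithTop I) p' p) p :=
        hglue ⊤ α p' p le_top (by rw [RS_coe]; exact hp')
      obtain ⟨t, htt, n, hn, htn⟩ := h _ ht0
      refine ⟨t, ?_, n, hn, RS_to_RL α htn⟩
      rw [← RS_coe]
      refine hcongr α t t (glue (α : WithTop I) p' p) p' (fun β hβ => ⟨rfl, glue_lt _ _ _ β hβ⟩) ?_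
      rw [RS_coe]
      exact RS_to_RL α htt
  refine ⟨key, ?_⟩
  intro p p' hpp h
  rw [← key] at h ⊢
  intro q hq
  apply h q
  rw [← RS_coe] at hq ⊢
  exact hcongr α q q p' p (fun β hβ => ⟨rfl, (hpp β (WithTop.coe_lt_coe.1 hβ)).symm⟩) hq

end Pool.Agent.Lib.MP_c5d73d_lc.F.H62
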